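import Mathlib

namespace Pool.Agent.H.MP_1e50ba_an

open Set Filter Topology MeasureTheory

set_option maxHeartbeats 400000

noncomputable def d (i : ℕ) : ℝ := if Odd i then -(1 / (2 ^ (i + 1) * (2 ^ (i + 1) + 1))) else 0
noncomputable def T (n : ℕ) : ℝ := ∑' i, d (i + n)
noncomputable def x (i : ℕ) : ℝ := (1 / 2) ^ (i + 1) + d i
noncomputable def r (n : ℕ) : ℝ := (1 / 2) ^ n + T n
noncomputable def ρ (m : ℕ) : ℝ := 4 / 3 * (1 / 4) ^ (m + 1)
noncomputable def g (n : ℕ) : ℝ := d n - T (n + 1)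
noncomputable def F (e : ℕ → Bool) : ℝ := ∑' i, if e i then x i else 0
noncomputable def S (e : ℕ → Bool) (n : ℕ) : ℝ := ∑ i ∈ Finset.range n, if e i then x i else 0
noncomputable def p (e : ℕ → Bool) (m : ℕ) : ℝ := S e m + x m
def hull (e : ℕ → Bool) (n : ℕ) : Set ℝ := Icc (S e n) (S e n + r n)

theorem q4 (n : ℕ) : (1 / 4 : ℝ) ^ n = 1 / (2 ^ n * 2 ^ n) := by
  rw [← mul_pow, one_div_pow]; norm_num

theorem d_np (i : ℕ) : d i ≤ 0 := by
  unfold d; split_ifs
  · exact neg_nonpos.2 (by positivity)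
  · rfl

theorem d_ge (i : ℕ) : -(1 / 4) ^ (i + 1) ≤ d i := by
  unfold d; split_ifs
  · rw [neg_le_neg_iff, q4]
    gcongr; linarith
  · exact neg_nonpos.2 (by positivity)

theorem d_odd {i : ℕ} (h : Odd i) : d i ≤ -(1 / 2 * (1 / 4) ^ (i + 1)) := by
  unfold d; rw [if_pos h, neg_le_neg_iff, q4, one_div_mul_one_div]
  have : (1:ℝ) ≤ 2 ^ (i + 1) := one_le_pow₀ (by norm_num)
  exact one_div_le_one_div_of_le (by positivity) (by nlinarith)

theorem abs4 (i : ℕ) : |d i| ≤ (1 / 4) ^ (i + 1) :=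
  abs_le.2 ⟨d_ge i, (d_np i).trans (by positivity)⟩

theorem le43 (n : ℕ) : (1 / 4 : ℝ) ^ n ≤ (1 / 3) ^ n := by gcongr; norm_num

theorem abs3 (i : ℕ) : |d i| ≤ (1 / 3) ^ (i + 1) := (abs4 i).trans (le43 _)

theorem le32 (n : ℕ) : (1 / 3 : ℝ) ^ n ≤ (1 / 2) ^ n := by gcongr; norm_num

theorem geo4 (n : ℕ) : HasSum (fun i => (1 / 4 : ℝ) ^ (i + n + 1)) (1 / 3 * (1 / 4) ^ n) := by
  have h := (hasSum_geometric_of_lt_one (r := 1 / 4) (by norm_num) (by norm_num)).mul_left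
    ((1 / 4 : ℝ) ^ (n + 1))
  have e1 : (fun i => (1 / 4 : ℝ) ^ (i + n + 1)) = fun i => (1 / 4 : ℝ) ^ (n + 1) * (1 / 4) ^ i := by
    funext i; ring
  have e2 : (1 / 3 * (1 / 4) ^ n : ℝ) = (1 / 4 : ℝ) ^ (n + 1) * (1 - 1 / 4)⁻¹ := by ring
  rw [e1, e2]; exact h

theorem d_summ (n : ℕ) : Summable fun i => d (i + n) :=
  Summable.of_norm_bounded (geo4 n).summable fun i => abs4 (i + n)

theorem T_np (n : ℕ) : T n ≤ 0 := tsum_nonpos fun i => d_np _

theorem T_ge (n : ℕ) : -(1 / 3 * (1 / 4) ^ n) ≤ T n :=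
  hasSum_le (fun i => d_ge (i + n)) (geo4 n).neg (d_summ n).hasSum

theorem T_succ (n : ℕ) : T n = d n + T (n + 1) := by
  unfold T
  rw [(d_summ n).tsum_eq_zero_add, zero_add]
  congr 2; funext i; congr 1; ring

theorem x_pos (i : ℕ) : 0 < x i := by
  have h1 := (abs_le.1 (abs3 i)).1
  have h2 : (1 / 3 : ℝ) ^ (i + 1) < (1 / 2) ^ (i + 1) :=
    pow_lt_pow_left₀ (by norm_num) (by norm_num) (by omega)
  unfold x; linarith

theorem x_le (i : ℕ) : x i ≤ (1 / 2) ^ i := by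
  have h1 := d_np i
  have : (0:ℝ) < (1 / 2) ^ i := by positivity
  unfold x; rw [pow_succ (1 / 2 : ℝ)]; linarith

theorem r_pos (n : ℕ) : 0 < r n := by
  have h1 := T_ge n
  have h2 := (le43 n).trans (le32 n)
  have : (0:ℝ) < (1 / 2) ^ n := by positivity
  unfold r; linarith

theorem r_le (n : ℕ) : r n ≤ 5 / 4 * (1 / 2) ^ n := by
  have h1 := T_np n
  have : (0:ℝ) < (1 / 2) ^ n := by positivity
  unfold r; linarith

theorem r_succ (n : ℕ) : r n = x n + r (n + 1) := by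
  unfold r x; rw [T_succ]; ring

theorem x_sub (n : ℕ) : r (n + 1) = x n - g n := by
  unfold r x g; ring

theorem ρ_pos (m : ℕ) : 0 < ρ m := by unfold ρ; positivity

theorem g_abs (m : ℕ) : |g m| ≤ ρ m := by
  have h1 := abs_le.1 (abs4 m)
  have h2 := T_ge (m + 1)
  have h3 := T_np (m + 1)
  have : (0:ℝ) < (1 / 4) ^ (m + 1) := by positivity
  unfold g ρ
  rw [abs_le]; constructor <;> linarith [h1.1, h1.2]

theorem g_even {k : ℕ} (hk : Even k) : 1 / 16 * ρ k ≤ g k := by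
  have h1 : d k = 0 := if_neg (Nat.not_odd_iff_even.2 hk)
  have h2 := d_odd hk.add_one
  have h3 := T_succ (k + 1)
  have h4 := T_np (k + 1 + 1)
  have : (0:ℝ) < (1 / 4) ^ (k + 1) := by positivity
  rw [pow_succ] at h2
  unfold g ρ; linarith

theorem ρ_3 (m : ℕ) : ρ m ≤ 5 / 12 * (1 / 3) ^ m := by
  have := le43 m
  have : (0:ℝ) < (1 / 4) ^ m := by positivity
  unfold ρ; rw [pow_succ]; linarith

theorem ρ_anti : Antitone ρ := fun a b h => by
  unfold ρ
  have : (1 / 4 : ℝ) ^ (b + 1) ≤ (1 / 4) ^ (a + 1) :=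
    pow_le_pow_of_le_one (by norm_num) (by norm_num) (by omega)
  linarith

theorem S_succ (e : ℕ → Bool) (n : ℕ) : S e (n + 1) = S e n + if e n then x n else 0 :=
  Finset.sum_range_succ _ _

theorem S_congr {e e' : ℕ → Bool} {n : ℕ} (h : ∀ i < n, e i = e' i) : S e n = S e' n :=
  Finset.sum_congr rfl fun i hi => by rw [h i (Finset.mem_range.1 hi)]

theorem p_congr {e e' : ℕ → Bool} {n : ℕ} (h : ∀ i < n, e i = e' i) : p e n = p e' n := by
  unfold p; rw [S_congr h]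

theorem hull_anti (e : ℕ → Bool) : Antitone (hull e) := by
  refine antitone_nat_of_succ_le fun n y hy => ?_
  have h1 := x_pos n
  have h2 := r_succ n
  obtain ⟨h3, h4⟩ := hy
  rw [S_succ] at h3 h4
  constructor <;> split_ifs at h3 h4 <;> linarith

theorem summ (e : ℕ → Bool) : Summable fun i => if e i then x i else 0 :=
  Summable.of_nonneg_of_le (fun i => by split_ifs; exacts [(x_pos i).le, le_rfl])
    (fun i => by split_ifs; exacts [x_le i, by positivity]) summable_geometric_two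

theorem F_cont : Continuous F := by
  refine continuous_tsum (fun i => ?_) summable_geometric_two fun i e => ?_
  · exact (continuous_of_discreteTopology (f := fun b : Bool => if b then x i else 0)).comp
      (continuous_apply i)
  · rw [Real.norm_eq_abs]
    split_ifs
    · rw [abs_of_pos (x_pos i)]; exact x_le i
    · simp

theorem F_mem (e : ℕ → Bool) (n : ℕ) : F e ∈ hull e n := by
  refine isClosed_Icc.mem_of_tendsto (summ e).hasSum.tendsto_sum_nat ?_
  filter_upwards [eventually_ge_atTop n] with k hk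
  exact hull_anti e hk ⟨le_rfl, by have := r_pos k; show S e k ≤ _; linarith⟩

theorem p_mem (e : ℕ → Bool) (n : ℕ) : p e n ∈ hull e n := by
  have h1 := x_pos n
  have h2 := r_succ n
  have h3 := r_pos (n + 1)
  constructor <;> unfold p <;> linarith

theorem lo {e : ℕ → Bool} {m : ℕ} (h : e m = false) {y : ℝ} (hy : y ∈ hull e (m + 1)) :
    y ≤ p e m - g m := by
  have := hy.2
  rw [S_succ, h, x_sub] at this
  simp only [Bool.false_eq_true, if_false] at this
  unfold p; linarith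

theorem lo' {e : ℕ → Bool} {m : ℕ} (h : e m = false) {y : ℝ} (hy : y ∈ hull e (m + 1)) :
    y ≤ p e m + ρ m := by
  have h1 := lo h hy
  have h2 := (abs_le.1 (g_abs m)).1
  linarith

theorem hi {e : ℕ → Bool} {m : ℕ} (h : e m = true) {y : ℝ} (hy : y ∈ hull e (m + 1)) :
    p e m ≤ y := by
  have := hy.1
  rw [S_succ, h] at this
  simpa [p] using this

theorem split {e e' : ℕ → Bool} {m : ℕ} (h : ∀ i < m, e i = e' i) (hm : e m ≠ e' m) {y y' : ℝ}
    (hy : y ∈ hull e (m + 1)) (hy' : y' ∈ hull e' (m + 1)) : |y - p e m| ≤ ρ m + |y - y'| := by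
  have h1 := le_abs_self (y - y')
  have h2 := neg_abs_le (y - y')
  have h3 := ρ_pos m
  have h4 := p_congr h
  have h5 := abs_nonneg (y - y')
  rw [abs_le]
  cases he : e m <;> cases he' : e' m
  · exact absurd (he.trans he'.symm) hm
  · have := lo' he hy; have := hi he' hy'; constructor <;> linarith
  · have := hi he hy; have := lo' he' hy'; constructor <;> linarith
  · exact absurd (he.trans he'.symm) hm

theorem first {e e' : ℕ → Bool} {n k : ℕ} (h : ∀ i < n, e i = e' i) (h' : ¬ ∀ i < k, e i = e' i) :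
    ∃ m, n ≤ m ∧ m < k ∧ (∀ i < m, e i = e' i) ∧ e m ≠ e' m := by
  classical
  push Not at h'
  refine ⟨Nat.find h', ?_, (Nat.find_spec h').1, fun i hi => ?_, (Nat.find_spec h').2⟩
  · by_contra hc
    exact (Nat.find_spec h').2 (h _ (not_le.1 hc))
  · by_contra hc
    exact Nat.find_min h' hi ⟨hi.trans (Nat.find_spec h').1, hc⟩

theorem meas (w : ℕ → Bool) (M j : ℕ) (c : ℝ) :
    volume {y | ∃ e : ℕ → Bool, (∀ i < M, e i = w i) ∧ |y - p e (M + j)| ≤ c} ≤
      ENNReal.ofReal (2 ^ j * (2 * c)) := by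
  let g : (Fin j → Bool) → ℕ → Bool := fun v i =>
    if h : i < M then w i else if h' : i - M < j then v ⟨i - M, h'⟩ else false
  have : {y | ∃ e : ℕ → Bool, (∀ i < M, e i = w i) ∧ |y - p e (M + j)| ≤ c} ⊆
      ⋃ v : Fin j → Bool, Metric.closedBall (p (g v) (M + j)) c := by
    rintro y ⟨e, he, hy⟩
    refine mem_iUnion.2 ⟨fun i => e (M + i), ?_⟩
    rw [Metric.mem_closedBall, Real.dist_eq, ← p_congr (e := e)]
    · exact hy
    · intro i hi
      simp only [g]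
      split_ifs with h1 h2
      · exact he i h1
      · congr 1; omega
      · omega
  refine (measure_mono this).trans ((measure_iUnion_fintype_le _ _).trans ?_)
  simp only [Real.volume_closedBall, Finset.sum_const, Finset.card_univ, Fintype.card_fun,
    Fintype.card_bool, Fintype.card_fin, nsmul_eq_mul]
  rw [ENNReal.ofReal_mul (p := 2 ^ j) (by positivity), ENNReal.ofReal_pow (by norm_num)]
  simp

def Good (y : ℝ) : Prop := ∃ n, ∀ m ≥ n, ∀ e, 2 * (9 / 20) ^ m < |y - p e m|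

theorem ae_good : ∀ᵐ y : ℝ, Good y := by
  have h : ∑' m : ℕ, volume {y : ℝ | ∃ e : ℕ → Bool, |y - p e m| ≤ 2 * (9 / 20) ^ m} ≠ ⊤ := by
    refine ne_top_of_le_ne_top (b := ∑' m : ℕ, ENNReal.ofReal (4 * (9 / 10) ^ m)) ?_
      (ENNReal.tsum_le_tsum fun m => ?_)
    · rw [← ENNReal.ofReal_tsum_of_nonneg (fun m => by positivity)
        ((summable_geometric_of_lt_one (by norm_num) (by norm_num)).mul_left 4)]
      exact ENNReal.ofReal_ne_top
    · have := meas (fun _ => false) 0 m (2 * (9 / 20) ^ m)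
      simp only [Nat.not_lt_zero, IsEmpty.forall_iff, implies_true, true_and, zero_add] at this
      refine this.trans (le_of_eq ?_)
      congr 1
      rw [show (9 / 10 : ℝ) = 2 * (9 / 20) by norm_num, mul_pow]; ring
  filter_upwards [ae_eventually_notMem h] with y hy
  obtain ⟨n, hn⟩ := eventually_atTop.1 hy
  refine ⟨n, fun m hm e => ?_⟩
  by_contra hc
  exact hn m hm ⟨e, not_lt.1 hc⟩

theorem meas_tail (w : ℕ → Bool) (M : ℕ) :
    volume {y | ∃ m ≥ M, ∃ e : ℕ → Bool, (∀ i < M, e i = w i) ∧ |y - p e m| ≤ ρ m} ≤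
      ENNReal.ofReal (4 * ρ M) := by
  have : {y | ∃ m ≥ M, ∃ e : ℕ → Bool, (∀ i < M, e i = w i) ∧ |y - p e m| ≤ ρ m} ⊆
      ⋃ j, {y | ∃ e : ℕ → Bool, (∀ i < M, e i = w i) ∧ |y - p e (M + j)| ≤ ρ (M + j)} := by
    rintro y ⟨m, hm, h⟩
    obtain ⟨j, rfl⟩ := Nat.exists_eq_add_of_le hm
    exact mem_iUnion.2 ⟨j, h⟩
  refine (measure_mono this).trans ((measure_iUnion_le _).trans ?_)
  refine (ENNReal.tsum_le_tsum fun j => meas w M j _).trans (le_of_eq ?_)
  have h1 : ∀ j, (2:ℝ) ^ j * (2 * ρ (M + j)) = 2 * ρ M * (1 / 2) ^ j := by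
    intro j
    unfold ρ
    rw [show (1 / 2 : ℝ) = 2 * (1 / 4) by norm_num, mul_pow]; ring
  simp only [h1]
  have h2 := ρ_pos M
  have h3 := hasSum_geometric_of_lt_one (r := 1 / 2) (by norm_num) (by norm_num)
  rw [← ENNReal.ofReal_tsum_of_nonneg (fun m => by positivity) (h3.summable.mul_left _),
    (h3.mul_left _).tsum_eq]
  congr 1; ring

theorem ρ_le (m : ℕ) : 2 * ρ m ≤ (9 / 20) ^ m := by
  have : (1 / 3 : ℝ) ^ m ≤ (9 / 20) ^ m := pow_le_pow_left₀ (by norm_num) (by norm_num) m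
  have h : (0:ℝ) < (1 / 3) ^ m := by positivity
  have := ρ_3 m
  linarith

theorem fib_fin {y : ℝ} (h : Good y) : {e | F e = y}.Finite := by
  obtain ⟨n, hn⟩ := h
  refine Set.Finite.of_finite_image (f := fun e (i : Fin n) => e i) (Set.toFinite _) ?_
  intro e he e' he' h
  by_contra hne
  obtain ⟨k, hk⟩ := Function.ne_iff.1 hne
  obtain ⟨m, h1, -, h2, h3⟩ := first (n := n) (k := k + 1) (e := e) (e' := e')
    (fun i hi => congrFun h ⟨i, hi⟩) (fun h => hk (h k (by omega)))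
  have h4 := split h2 h3 (F_mem e _) (F_mem e' _)
  rw [he, he'] at h4
  have := hn m h1 e
  have := ρ_le m
  have := ρ_pos m
  simp only [sub_self, abs_zero] at h4
  linarith

noncomputable def a (e : ℕ → Bool) (n : ℕ) : ℝ :=
  ∑ i ∈ Finset.range n, if e i then (1 / 2) ^ (i + 1) else 0
noncomputable def b (e : ℕ → Bool) (n : ℕ) : ℝ :=
  ∑ i ∈ Finset.range n, if e i then d i else 0

theorem p_eq (e : ℕ → Bool) (n : ℕ) :
    p e n = (a e n + (1 / 2) ^ (n + 1)) + (b e n + d n) := by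
  have : S e n = a e n + b e n := by
    unfold S a b x
    rw [← Finset.sum_add_distrib]
    exact Finset.sum_congr rfl fun i _ => by split_ifs <;> simp
  unfold p x; rw [this]; ring

theorem b_near (e : ℕ → Bool) {t m : ℕ} (h : t ≤ m) :
    |b e m + d m - b e t| ≤ 1 / 2 * (1 / 3) ^ t := by
  have h1 : |b e m - b e t| ≤ 1 / 2 * ((1 / 3) ^ t - (1 / 3) ^ m) := by
    induction m, h using Nat.le_induction with
    | base => simp
    | succ m _ ih =>
      have e1 : b e (m + 1) = b e m + if e m then d m else 0 :=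
        Finset.sum_range_succ _ _
      have h2 := abs_le.1 (abs3 m)
      have h3 : (0:ℝ) < (1 / 3) ^ m := by positivity
      rw [e1, abs_le] at *
      rw [pow_succ (1 / 3 : ℝ)] at *
      constructor <;> split_ifs <;> linarith [ih.1, ih.2, h2.1, h2.2]
  have h2 := abs_le.1 (abs3 m)
  have h3 : (0:ℝ) < (1 / 3) ^ m := by positivity
  rw [abs_le] at *
  rw [pow_succ (1 / 3 : ℝ)] at h2
  constructor <;> linarith [h1.1, h1.2, h2.1, h2.2]

theorem half_int {m N : ℕ} (h : m ≤ N) : ∃ z : ℤ, (1 / 2 : ℝ) ^ m = z * (1 / 2) ^ N := by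
  obtain ⟨j, rfl⟩ := Nat.exists_eq_add_of_le h
  refine ⟨2 ^ j, ?_⟩
  push_cast
  rw [pow_add, mul_left_comm, ← mul_pow]; norm_num

theorem a_int (e : ℕ → Bool) {m N : ℕ} (h : m ≤ N) : ∃ z : ℤ, a e m = z * (1 / 2) ^ N := by
  induction m with
  | zero => exact ⟨0, by simp [a]⟩
  | succ m ih =>
    obtain ⟨z, hz⟩ := ih (by omega)
    obtain ⟨w, hw⟩ := half_int h
    have e1 : a e (m + 1) = a e m + if e m then (1 / 2) ^ (m + 1) else 0 :=
      Finset.sum_range_succ _ _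
    rw [e1, hz, hw]
    split_ifs
    · exact ⟨z + w, by push_cast; ring⟩
    · exact ⟨z, by ring⟩

theorem A_int (e : ℕ → Bool) {m N : ℕ} (h : m < N) :
    ∃ z : ℤ, a e m + (1 / 2) ^ (m + 1) = z * (1 / 2) ^ N := by
  obtain ⟨z, hz⟩ := a_int e h.le
  obtain ⟨w, hw⟩ := half_int (Nat.succ_le_of_lt h)
  exact ⟨z + w, by rw [hz, hw]; push_cast; ring⟩

theorem odd_ge (z : ℤ) (N : ℕ) :
    (1 / 2 : ℝ) ^ (N + 1) ≤ |(z : ℝ) * (1 / 2) ^ N + (1 / 2) ^ (N + 1)| := by
  have : (z : ℝ) * (1 / 2) ^ N + (1 / 2) ^ (N + 1) = ((2 * z + 1 : ℤ) : ℝ) * (1 / 2) ^ (N + 1) := by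
    push_cast; ring
  rw [this, abs_mul, abs_of_pos (a := (1 / 2 : ℝ) ^ (N + 1)) (by positivity)]
  have h1 : (1:ℝ) ≤ |((2 * z + 1 : ℤ) : ℝ)| := by
    rw [← Int.cast_abs]
    exact_mod_cast Int.one_le_abs (by omega)
  have h2 : (0:ℝ) < (1 / 2) ^ (N + 1) := by positivity
  nlinarith

theorem sep (e1 e2 e3 e4 : ℕ → Bool) {k m k' m' N : ℕ} (h1 : k < k') (h2 : m < k') (h3 : m' ≠ k')
    (h4 : k' ≤ N) (h5 : m' ≤ N) :
    (1 / 2 : ℝ) ^ (N + 1) ≤ |(a e1 k + (1 / 2) ^ (k + 1)) - (a e2 m + (1 / 2) ^ (m + 1))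
      - ((a e3 k' + (1 / 2) ^ (k' + 1)) - (a e4 m' + (1 / 2) ^ (m' + 1)))| := by
  rcases lt_or_gt_of_ne h3 with h | h
  · obtain ⟨z1, e1⟩ := A_int e1 h1
    obtain ⟨z2, e2⟩ := A_int e2 h2
    obtain ⟨z3, e3⟩ := a_int e3 (le_refl k')
    obtain ⟨z4, e4⟩ := A_int e4 h
    refine (pow_le_pow_of_le_one (by norm_num) (by norm_num) (by omega)).trans
      ((odd_ge (z3 - z4 - z1 + z2) k').trans (le_of_eq ?_))
    rw [e1, e2, e3, e4, ← abs_neg]
    congr 1; push_cast; ring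
  · obtain ⟨z1, e1⟩ := A_int e1 (h1.trans h)
    obtain ⟨z2, e2⟩ := A_int e2 (h2.trans h)
    obtain ⟨z3, e3⟩ := A_int e3 h
    obtain ⟨z4, e4⟩ := a_int e4 (le_refl m')
    refine (pow_le_pow_of_le_one (by norm_num) (by norm_num) (by omega)).trans
      ((odd_ge (z1 - z2 - z3 + z4) m').trans (le_of_eq ?_))
    rw [e1, e2, e3, e4]
    congr 1; push_cast; ring

end Pool.Agent.H.MP_1e50ba_an
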